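import Pool.Agent.Run7.h95.LF.Full
import Pool.Agent.Results.MP_a60a76_nt.MultiplicativeValues

/-!
# Curves congruent to a given curve and the values of generic linear forms

Let `v_i`, `i` in a countable set, be vectors in `ℝ^k` such that for every `ε > 0` at most `C X ^ (τ + ε)` of them have norm at
most `X`; for instance all `(b_1^(n_1), …, b_k^(n_k))` with `b_j > 1` (`τ = 0`), all `(1, n, …, n^d)` (`τ = 1 / d`), or all
`(n_1^(a_1), …, n_k^(a_k))` (`τ` the sum of the `1 / a_j`).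
Let `P ≥ 17` and `0 ≤ θ < 1`. For all `α` in `ℝ^k` outside ONE set of Hausdorff dimension at most
`k - 1 + (7 / (2 P) + τ) / (1 - θ)` (less than `k` if `θ < 1 - 7 / (2 P) - τ`), for EVERY elliptic curve `E₀` over `ℚ`, every
`w` and all but finitely many `i`, no elliptic curve over `ℚ` whose invariant has a height `H` with
`|H - (α_1 v_(i,1) + … + α_k v_(i,k))| ≤ w |v_i|^θ` is `p`-congruent to `E₀` for a prime `p ≥ P`. For all real `2 × k` matrices
`α` outside one set of dimension at most `2 (k - 1) + (7 / (2 P) + τ) / (1 - θ)` the same holds for all the invariants `a / b`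
(in lowest terms) with `|a - (α v_i)_1| ≤ w |v_i|^θ` and `|b - (α v_i)_2| ≤ w |v_i|^θ`. (The starting files treat the heights
near `f_n(α)`, starshaped, with one parameter `α`, and near the values of multiplicative functions.)

Proof. The number of the partners of `E₀` with invariant of height at most `X` is at most `C X^(7 / (2 P) + ε)` (starting
theorem `FewPartners`). The `α` with such an invariant in the window of `v_i` form slabs, which are covered by few small cubes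
(`Pool.Agent.N251.LF`).
-/

set_option autoImplicit false

open WeierstrassCurve

namespace Pool.Agent.Results.MP_a60a76_nt.GenericLinearForms

open MultiplicativeValues (Congruent jInvariant ht Exc count)
open Pool.Agent.N251.LF (Fam Sq examples)
open Run7.h95.LF (full_ctb full_mat_ctb)

/-- numerator and denominator of a rational number, as real numbers -/
noncomputable def nd (j : ℚ) : Fin 2 → ℝ := ![(j.num : ℝ), (j.den : ℝ)]

lemma nd_le {j : ℚ} {X : ℝ} (h : ∀ l, |nd j l| ≤ X) : (ht j : ℝ) ≤ X := by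
  have h0 : |(j.num : ℝ)| ≤ X := h 0
  have h1 : |(j.den : ℝ)| ≤ X := h 1
  have ha : |(j.num : ℝ)| = (j.num.natAbs : ℝ) := by
    rw [← Int.cast_abs, Int.abs_eq_natAbs]
    simp
  rw [ha] at h0
  rw [abs_of_nonneg (Nat.cast_nonneg _)] at h1
  unfold ht
  rw [Nat.cast_max]
  exact max_le h0 h1

/-- **Theorem.** Let the family `v` of vectors in `ℝ^k` have at most `C X ^ (τ + η)` members of norm at most `X`, for every
`η > 0`, let `P ≥ 17` and `0 ≤ θ < 1`. (1) There is ONE set `E` of Hausdorff dimension at most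
`k - 1 + (7 / (2 P) + τ) / (1 - θ)` (less than `k`, and of measure zero, if `θ < 1 - 7 / (2 P) - τ`) such that for each `α`
in `ℝ^k` outside `E`, for EVERY elliptic curve `E₀ : y² = x³ + A₀x + B₀`, `A₀`, `B₀` integers, each `w` and all but finitely
many `i` no elliptic curve `y² = x³ + Ax + B` over `ℚ` whose invariant has a height `H` with
`|H - ∑ α_l v_(i,l)| ≤ w ‖v_i‖ ^ θ` is `p`-congruent to `E₀` for any prime `p ≥ P`. (2) There is one set `E` of `2 × k`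
matrices of dimension at most `2 (k - 1) + (7 / (2 P) + τ) / (1 - θ)` (less than `2 k`, and of measure zero, if
`2 θ < 2 - 7 / (2 P) - τ`) such that for each `α` outside `E` the same holds if the numerator and the denominator of the
invariant are within `w ‖v_i‖ ^ θ` of the two entries of `α v_i`. (3) Examples of families. -/
theorem result :
    (∀ P : ℕ, 17 ≤ P → ∀ (k : ℕ) (ι : Type) (v : ι → Fin k → ℝ) (τ θ : ℝ), 0 ≤ τ → 0 ≤ θ → θ < 1 → Fam v τ →
      (∃ E : Set (Fin k → ℝ), dimH E ≤ ENNReal.ofReal ((k : ℝ) - 1 + (7 / (2 * P) + τ) / (1 - θ)) ∧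
        (1 ≤ k → θ < 1 - 7 / (2 * P) - τ → dimH E < (k : ENNReal) ∧ MeasureTheory.volume E = 0) ∧
        ∀ α, α ∉ E → ∀ A₀ B₀ : ℤ, 4 * A₀ ^ 3 + 27 * B₀ ^ 2 ≠ 0 → ∀ w : ℝ,
          {i | ¬ ∀ A B : ℚ, 4 * A ^ 3 + 27 * B ^ 2 ≠ 0 →
            |(ht (jInvariant A B) : ℝ) - ∑ l, α l * v i l| ≤ w * ‖v i‖ ^ θ →
              ∀ p : ℕ, p.Prime → P ≤ p → ¬ Congruent p A B (A₀ : ℚ) (B₀ : ℚ)}.Finite) ∧
      (∃ E : Set (Fin 2 × Fin k → ℝ), dimH E ≤ ENNReal.ofReal (2 * ((k : ℝ) - 1) + (7 / (2 * P) + τ) / (1 - θ)) ∧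
        (1 ≤ k → 2 * θ < 2 - 7 / (2 * P) - τ → dimH E < ((2 * k : ℕ) : ENNReal) ∧ MeasureTheory.volume E = 0) ∧
        ∀ α, α ∉ E → ∀ A₀ B₀ : ℤ, 4 * A₀ ^ 3 + 27 * B₀ ^ 2 ≠ 0 → ∀ w : ℝ,
          {i | ¬ ∀ A B : ℚ, 4 * A ^ 3 + 27 * B ^ 2 ≠ 0 →
            |((jInvariant A B).num : ℝ) - ∑ l, α (0, l) * v i l| ≤ w * ‖v i‖ ^ θ →
            |((jInvariant A B).den : ℝ) - ∑ l, α (1, l) * v i l| ≤ w * ‖v i‖ ^ θ →
              ∀ p : ℕ, p.Prime → P ≤ p → ¬ Congruent p A B (A₀ : ℚ) (B₀ : ℚ)}.Finite)) ∧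
    (∀ d : ℕ, 1 ≤ d → Fam (fun (n : ℕ) (j : Fin (d + 1)) => (n : ℝ) ^ (j : ℕ)) (1 / d)) ∧
    (∀ (k : ℕ) (b : Fin k → ℝ), (∀ j, 1 < b j) → Fam (fun (n : Fin k → ℕ) (j : Fin k) => b j ^ n j) 0) ∧
    (∀ (k : ℕ) (a : Fin k → ℝ), (∀ j, 0 < a j) →
      Fam (fun (n : Fin k → ℕ) (j : Fin k) => (n j : ℝ) ^ a j) (∑ j, 1 / a j)) ∧
    ∀ (k : ℕ) (u : Fin k → ℕ → ℝ) (τ : Fin k → ℝ), (∀ j, Sq (u j) (τ j)) →
      Fam (fun (n : Fin k → ℕ) (j : Fin k) => u j (n j)) (∑ j, τ j) := by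
  refine ⟨fun P hP k ι v τ θ hτ hθ0 hθ1 hv => ⟨?_, ?_⟩, examples⟩
  · obtain ⟨E, h1, h2, h3⟩ := full_ctb (J := {e : ℤ × ℤ // 4 * e.1 ^ 3 + 27 * e.2 ^ 2 ≠ 0})
      (fun e => Exc P e.1.1 e.1.2) (fun j => (ht j : ℝ)) v (s := 7 / (2 * P)) (by positivity) hτ hθ1 hv
      (fun e η hη => count P hP e.1.1 e.1.2 e.2 η hη)
    refine ⟨E, h1, h2, fun α hα A₀ B₀ h0 w => (h3 α hα ⟨(A₀, B₀), h0⟩ w).subset ?_⟩
    intro i hi
    simp only [Set.mem_ofPred_eq] at hi ⊢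
    push Not at hi
    obtain ⟨A, B, hAB, hw, p, hp, hPp, hcon⟩ := hi
    exact ⟨jInvariant A B, ⟨A, B, hAB, rfl, p, hp, hPp, hcon⟩, hw⟩
  · obtain ⟨E, h1, h2, h3⟩ := full_mat_ctb (J := {e : ℤ × ℤ // 4 * e.1 ^ 3 + 27 * e.2 ^ 2 ≠ 0})
      (fun e => Exc P e.1.1 e.1.2) nd v (s := 7 / (2 * P)) (by positivity) hτ hθ1 hv (by
      intro e η hη
      obtain ⟨C, hC⟩ := count P hP e.1.1 e.1.2 e.2 η hη
      refine ⟨C, fun X hX => ?_⟩
      obtain ⟨f1, f2⟩ := hC X hX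
      have hsub : {t | t ∈ Exc P e.1.1 e.1.2 ∧ ∀ l, |nd t l| ≤ X} ⊆ {j | j ∈ Exc P e.1.1 e.1.2 ∧ (ht j : ℝ) ≤ X} :=
        fun t ht => ⟨ht.1, nd_le ht.2⟩
      exact ⟨f1.subset hsub, le_trans (by exact_mod_cast Set.ncard_le_ncard hsub f1) f2⟩)
    refine ⟨E, by simpa using h1, fun hk hlt => h2 (by norm_num) hk (by push_cast; linarith), fun α hα A₀ B₀ h0 w =>
      (h3 α hα ⟨(A₀, B₀), h0⟩ w).subset ?_⟩
    intro i hi
    simp only [Set.mem_ofPred_eq] at hi ⊢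
    push Not at hi
    obtain ⟨A, B, hAB, hw1, hw2, p, hp, hPp, hcon⟩ := hi
    refine ⟨jInvariant A B, ⟨A, B, hAB, rfl, p, hp, hPp, hcon⟩, fun l => ?_⟩
    fin_cases l
    · exact hw1
    · exact hw2

end Pool.Agent.Results.MP_a60a76_nt.GenericLinearForms
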