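import Mathlib
import Pool.Agent.Run7.h742.FM.Fm

/-!
# No congruences with smaller curves above almost all integral points of affine space

Let `j = F / G` be a rational function of `n ≥ 1` variables over `ℚ`, of degree `D`, whose poles have the
weight `ω` (a hyperplane counts for `1`, an irreducible hypersurface of higher degree for `2`).  For almost
all integral points `x` of the affine space, in fact for almost all rational points with any given set of
denominators: for EVERY prime `p ≥ 13`, EVERY number field `L` of degree less than `p`, ALL elliptic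
curves `E` over `L` of invariant `j(x)` (all twists) and ALL elliptic curves `E'` over `L` such that the
(relative) logarithmic height of the invariant of `E'` is at most `(κ - D/p) log H(x)`, `κ < ω`, the fields
`L(E[p])` and `L(E'[p])` are different; in particular `E` and `E'` are not `p`-congruent.  The exceptional
set is the same for all functions `j`.

For `L = ℚ` these are all primes `p ≥ 13`, in particular all `p > 17`.

Proof. For almost all `x` there are primes `l` of which `j(x)` has a pole, with product at least
`H(x) ^ (ω - ε)`, and those at which the order of the pole is at least `p` have a product of at most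
`C H(x) ^ (D/p)`.  At the places above the others the valuation of `j(x)` is not divisible by `p`, so by the
local theorem of the starting file `Y673/FM` (which covers the places above `p`) the invariant of `E'` has
a pole at all these places, and its height is at least the logarithm of the product of these primes.
-/

set_option autoImplicit false

namespace Pool.Agent.Results.MP_a60a76_nt.IntegralPointsSmallPartners

open MvPolynomial

section
variable {K : Type} [Field K]

/-- The curve `y² = x³ + Ax + B` over the field `K`. -/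
def curve (A B : K) : WeierstrassCurve K := ⟨0, 0, 0, A, B⟩

/-- Its `j`-invariant. -/
noncomputable def invariant (A B : K) : K := 1728 * (4 * A ^ 3) / (4 * A ^ 3 + 27 * B ^ 2)

open scoped Classical in
/-- The group of its points over the algebraic closure of `K`. -/
abbrev CurvePoints (A B : K) : Type :=
  ((curve A B).baseChange (AlgebraicClosure K)).toAffine.Point

open scoped Classical in
/-- The action of an automorphism `σ` of the algebraic closure on the points. -/
noncomputable def galois (A B : K) (σ : AlgebraicClosure K ≃ₐ[K] AlgebraicClosure K) :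
    CurvePoints A B →+ CurvePoints A B :=
  WeierstrassCurve.Affine.Point.map (σ : AlgebraicClosure K →ₐ[K] AlgebraicClosure K)

open scoped Classical in
/-- The curves `y² = x³ + Ax + B` and `y² = x³ + A'x + B'` are `p`-congruent over `K`: some map between
the groups of points restricts to a bijective additive map between the groups of points killed by `p`
which commutes with the Galois group. -/
def Congruent (p : ℕ) (A B A' B' : K) : Prop :=
  ∃ f : CurvePoints A B → CurvePoints A' B',
    (∀ P Q, p • P = 0 → p • Q = 0 → f (P + Q) = f P + f Q) ∧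
    Set.BijOn f {P | p • P = 0} {Q | p • Q = 0} ∧
    ∀ (σ : AlgebraicClosure K ≃ₐ[K] AlgebraicClosure K) (P : CurvePoints A B), p • P = 0 →
      f (galois A B σ P) = galois A' B' σ (f P)

open scoped Classical in
/-- The curves have the same `p`-division field over `K`: an automorphism of the algebraic closure
fixes the points killed by `p` of the first curve if and only if it fixes those of the second. -/
def SameDivisionField (p : ℕ) (A B A' B' : K) : Prop :=
  ∀ σ : AlgebraicClosure K ≃ₐ[K] AlgebraicClosure K,
    (∀ P : CurvePoints A B, p • P = 0 → galois A B σ P = P) ↔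
      (∀ Q : CurvePoints A' B', p • Q = 0 → galois A' B' σ Q = Q)

end

/-- `max |x_j|` -/
def H {n : ℕ} (x : Fin (n + 1) → ℤ) : ℕ := Finset.univ.sup fun j => (x j).natAbs

/-- the rational points of the affine space `𝔸^n = ℙ^n ∖ {x 0 = 0}` with denominator in `M` and
with `H x ≤ B`: the point `(x 1 / x 0, …, x n / x 0)` is given by its coprime integer coordinates
with `x 0 > 0`, and `x 0` is its denominator. `M = {1}`: the integral points -/
def Points (n : ℕ) (M : Set ℕ) (B : ℕ) : Set (Fin (n + 1) → ℤ) :=
  {x | Finset.univ.gcd x = 1 ∧ 0 < x 0 ∧ (x 0).toNat ∈ M ∧ H x ≤ B}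

/-- `F`, `G` are forms of degree `D` in `x 0, …, x n`, so `F / G` is a rational function on `𝔸^n`,
and its poles contain the distinct hypersurfaces `P j = 0` of degree `k j`, irreducible over `ℚ`,
none of which is the hyperplane `x 0 = 0`: `P j` divides `G` and does not divide `F` -/
structure IsInvariant {n q : ℕ} (D : ℕ) (F G : MvPolynomial (Fin (n + 1)) ℤ)
    (P : Fin q → MvPolynomial (Fin (n + 1)) ℤ) (k : Fin q → ℕ) : Prop where
  hF : F.IsHomogeneous D
  hG : G.IsHomogeneous D
  hP : ∀ j, (P j).IsHomogeneous (k j)
  irreducible : ∀ j, Irreducible (map (Int.castRingHom ℚ) (P j))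
  distinct : ∀ i j, i ≠ j →
    ¬ Associated (map (Int.castRingHom ℚ) (P i)) (map (Int.castRingHom ℚ) (P j))
  affine : ∀ j, ¬ Associated (map (Int.castRingHom ℚ) (P j)) (X 0)
  dvd : ∀ j, map (Int.castRingHom ℚ) (P j) ∣ map (Int.castRingHom ℚ) G
  not_dvd : ∀ j, ¬ map (Int.castRingHom ℚ) (P j) ∣ map (Int.castRingHom ℚ) F

/-- the weight of the poles: a pole of degree `1` counts for `1`, a pole of degree at least `2`
counts for `2` -/
def weight {q : ℕ} (k : Fin q → ℕ) : ℝ := ∑ j, ((min (k j) 2 : ℕ) : ℝ)

/-- the value `F (x) / G (x)` -/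
noncomputable def value {n : ℕ} (F G : MvPolynomial (Fin (n + 1)) ℤ) (x : Fin (n + 1) → ℤ) : ℚ :=
  ((eval x F : ℤ) : ℚ) / ((eval x G : ℤ) : ℚ)

/-- For some prime `p ≥ 13` and some number field `L` of degree less than `p` there are elliptic curves
`E : y² = x³ + Ax + B` and `E' : y² = x³ + A'x + B'` over `L` with the same `p`-division field, such that
the invariant of `E` is `F (x) / G (x)` and the logarithmic height of the invariant of `E'` (relative to
`L`, that is `[L : ℚ]` times the absolute height) is at most `(κ - D / p) log (H x)`. -/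
def HasSmallPartner {n : ℕ} (F G : MvPolynomial (Fin (n + 1)) ℤ) (D : ℕ) (κ : ℝ)
    (x : Fin (n + 1) → ℤ) : Prop :=
  ∃ p : ℕ, p.Prime ∧ 13 ≤ p ∧ ∃ (L : Type) (_ : Field L) (_ : NumberField L),
    Module.finrank ℚ L < p ∧ ∃ A B A' B' : L, 4 * A ^ 3 + 27 * B ^ 2 ≠ 0 ∧
      4 * A' ^ 3 + 27 * B' ^ 2 ≠ 0 ∧ invariant A B = (value F G x : L) ∧
      Height.logHeight₁ (invariant A' B') ≤ (κ - D / p) * Real.log (H x) ∧
      SameDivisionField p A B A' B'

/-- the points `x` which are not poles of `F / G` and have a small partner -/
def Failures {n : ℕ} (F G : MvPolynomial (Fin (n + 1)) ℤ) (D : ℕ) (κ : ℝ) :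
    Set (Fin (n + 1) → ℤ) :=
  {x | x 0 ≠ 0 ∧ eval x G ≠ 0 ∧ HasSmallPartner F G D κ x}

/-- the proportion of the points of `Q` among the points with denominators in `M` of height at most
`B` is at most a negative power of `B`, uniformly in the set `M` -/
def PowerSaving (n : ℕ) (Q : Set (Fin (n + 1) → ℤ)) : Prop :=
  ∃ δ : ℝ, 0 < δ ∧ ∃ C : ℝ, 0 < C ∧ ∀ B : ℕ, 1 ≤ B → ∀ M : Set ℕ,
    ((Points n M B ∩ Q).ncard : ℝ) ≤ C * (B : ℝ) ^ (-δ) * ((Points n M B).ncard : ℝ)

theorem small_iff {n : ℕ} {F G : MvPolynomial (Fin (n + 1)) ℤ} {D : ℕ} {κ : ℝ}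
    {x : Fin (n + 1) → ℤ} (h : HasSmallPartner F G D κ x) : Run7.h742.FM.Fmp F G D κ x := by
  obtain ⟨p, hp, h13, L, iF, iN, hL, A, B, A', B', hD, hD', hj, hh, hS⟩ := h
  have hinv : ∀ (A B : L), Pool.Agent.Y673.Loc.jv A B = invariant A B := by
    intro A B
    unfold Pool.Agent.Y673.Loc.jv invariant
    ring
  exact ⟨p, hp, h13, L, iF, iN, hL, A, B, A', B', hD, hD', by rw [hinv]; exact hj,
    by rw [hinv]; exact hh, hS⟩

/-- **Congruences above almost all integral points.** For every number `n ≥ 1` of variables there is
one set `E₀` of relative density zero among the points with denominators in `M`, uniformly in `M`, with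
the following properties for all invariants `j = F / G` of `n` variables, of degree `D`, whose poles
have the weight `ω`, and for all `κ < ω`:
(1) the points `x` with a small partner are contained in a power-saving proportion of the points,
uniformly in `M`;
(2) no point `x` outside `E₀` with `H x > T (j, κ)` has a small partner.
(3) Congruent curves have the same division field. -/
theorem result :
    (∀ n : ℕ, 1 ≤ n → ∃ E₀ : Set (Fin (n + 1) → ℤ),
      (∀ ε : ℝ, 0 < ε → ∃ B₀ : ℕ, ∀ B : ℕ, B₀ ≤ B → ∀ M : Set ℕ,
        ((Points n M B ∩ E₀).ncard : ℝ) ≤ ε * ((Points n M B).ncard : ℝ)) ∧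
      ∀ (D q : ℕ) (F G : MvPolynomial (Fin (n + 1)) ℤ)
        (P : Fin q → MvPolynomial (Fin (n + 1)) ℤ) (k : Fin q → ℕ), IsInvariant D F G P k →
        ∀ κ : ℝ, κ < weight k →
          PowerSaving n (Failures F G D κ) ∧
          ∃ T : ℕ, ∀ x : Fin (n + 1) → ℤ, x 0 ≠ 0 → x ∉ E₀ → T < H x → eval x G ≠ 0 →
            ¬ HasSmallPartner F G D κ x) ∧
    ∀ (K : Type) [Field K] [CharZero K] (p : ℕ) (A B A' B' : K), Congruent p A B A' B' →
      SameDivisionField p A B A' B' := by
  refine ⟨fun n hn => ?_, ?_⟩
  · obtain ⟨E₀, hE₀, hall⟩ := Run7.h742.FM.fm_univ hn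
    refine ⟨E₀, hE₀, fun D q F G P k h κ hκ => ?_⟩
    have hI : Run7.h742.SZ.Inv D F G P k :=
      ⟨h.hF, h.hG, ⟨h.hP, h.irreducible, h.distinct, h.affine⟩, h.dvd, h.not_dvd⟩
    refine ⟨?_, ?_⟩
    · refine (Run7.h742.FM.fm_ps hn hI hκ).mono ?_
      rintro x ⟨hx, hG, hS⟩
      exact ⟨hx, hG, small_iff hS⟩
    · obtain ⟨T, hT⟩ := hall D q F G P k hI κ hκ
      exact ⟨T, fun x hx hxE hTx hG hS => hT x hx hxE hTx hG (small_iff hS)⟩
  · intro K _ _ p A B A' B' ⟨f, h1, h2, h3⟩
    exact Pool.Agent.Y673.FM.sameF_of f h2 h3

end Pool.Agent.Results.MP_a60a76_nt.IntegralPointsSmallPartners
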