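import Pool.Agent.Run7.h577.WH

/-!
# MP_a60a76_nt: almost all curves have no congruence with curves of height up to `H(E) ^ (5/3 - η)`

Let `κ < 5/3`.  For all but `O(H ^ (5/6 - δ))` of the (at least `H ^ (5/6) / 9`) integral equations
`E : y² = x³ + Ax + B` of height `max (4|A|³, 27B²)` at most `H` the following holds.  Let `E'` be an
elliptic curve over `ℚ`, some quadratic (if `j = 0, 1728`, any) twist of which has an integral equation
whose height is at most `H ^ κ`, OR at most the power `3 / 2` of its conductor, whatever this height is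
(almost all curves satisfy this second condition).  If `E'[n] ≅ E[n]` as Galois modules for some `n` with a
prime factor `p ≥ 13`, then `E'` is isomorphic to `E`.  So twists of `E` are excluded as well.

Proof.  Let `E[p] ≅ E'[p]`, `D = 4A³ + 27B²`, and `D' = 4a³ + 27b²` for the minimal twist `(a, b)` of `E'`.  By
the local theorems of the libraries `Y673`, `K4H56/JD` a prime `q ≥ 5` dividing `D` exactly once is a prime
of multiplicative reduction of `(a, b)`, and any other prime `q ≥ 5`, `q ∤ D` with `q ∣ D'` has multiplicative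
reduction and `q ^ p ∣ D'` (but for one small `q = p`).  Let `S` be the product of the primes dividing `D`
exactly once.  For all but `O(H ^ (5/6 - δ))` curves `S ≥ H ^ (1 - ω)`; so `S ∣ D'` and the conductor `N'` of
`(a, b)` is at most `H ^ (1 + ω) (H' / H) ^ (1 / 13)`, where `H' = H(a, b)`.  Conversely `S ∣ D'`, the (small)
number `D / S` and the fact that few `E` have a common `D` (see below) leave few `E` for a given `(a, b)`.
The number of the curves `(a, b)` of height about `H' = H ^ κ` and conductor at most `N` is at most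
`(N / H' ^ (1/6) + H' ^ (1/2)) H ^ ε` (library `Run7/h577/V*`), which is smaller than `H ^ (5/6)` for
`1 < κ < 5/3`.  For `H' ≤ H ^ (21 / 20)` the discriminants `D`, `D'` are proportional, with a small
factor, and the pairs `(A, B)`, `(a, b)` with `k' (4A³ + 27B²) = k (4a³ + 27b²)`, `k' A³ ≠ k a³`, are few,
since for fixed `A`, `a` they lie on a conic without many points.  Curves with the same invariant are
twists of each other and are excluded by a prime of multiplicative reduction.
-/

set_option autoImplicit false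

open WeierstrassCurve
open scoped Classical

namespace Pool.Agent.Results.MP_a60a76_nt.LargerPartners

/-- The curve `y² = x³ + Ax + B` over `ℚ`. -/
def curve (A B : ℚ) : WeierstrassCurve ℚ := ⟨0, 0, 0, A, B⟩

/-- The group of its points over the algebraic closure of `ℚ`. -/
abbrev Points (A B : ℚ) : Type := ((curve A B).baseChange (AlgebraicClosure ℚ)).toAffine.Point

/-- The action of an automorphism `σ` of the algebraic closure on the points. -/
noncomputable def galois (A B : ℚ) (σ : AlgebraicClosure ℚ ≃ₐ[ℚ] AlgebraicClosure ℚ) :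
    Points A B →+ Points A B :=
  WeierstrassCurve.Affine.Point.map
    (σ : AlgebraicClosure ℚ →ₐ[ℚ] AlgebraicClosure ℚ)

/-- The `n`-torsion of `y² = x³ + Ax + B` and that of `y² = x³ + A'x + B'` are isomorphic as Galois
modules: some map between the groups of points restricts to a bijective additive map of the
`n`-torsion which commutes with the Galois group. -/
def Congruent (n : ℕ) (A B A' B' : ℚ) : Prop :=
  ∃ f : Points A B → Points A' B', (∀ P Q, n • P = 0 → n • Q = 0 → f (P + Q) = f P + f Q) ∧
    Set.BijOn f {P | n • P = 0} {Q | n • Q = 0} ∧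
    ∀ (σ : AlgebraicClosure ℚ ≃ₐ[ℚ] AlgebraicClosure ℚ) (P : Points A B), n • P = 0 →
      f (galois A B σ P) = galois A' B' σ (f P)

/-- The curves are isomorphic over `ℚ`. -/
def Isomorphic (A B A' B' : ℚ) : Prop := ∃ c : ℚ, c ≠ 0 ∧ A' = c ^ 4 * A ∧ B' = c ^ 6 * B

/-- The `j`-invariant. -/
noncomputable def invariant (A B : ℚ) : ℚ := 1728 * (4 * A ^ 3) / (4 * A ^ 3 + 27 * B ^ 2)

/-- The discriminant, up to the factor `-16`. -/
def disc (A B : ℤ) : ℤ := 4 * A ^ 3 + 27 * B ^ 2

/-- The height of `y² = x³ + Ax + B`. -/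
def height (A B : ℤ) : ℤ := max (4 * |A| ^ 3) (27 * B ^ 2)

/-- The product of the primes `q ≥ 5` dividing `4A³ + 27B²`, squared if `q ∣ A`.  If the equation
`y² = x³ + Ax + B` is minimal, this is the part prime to `6` of the conductor of the curve. -/
def conductor (A B : ℤ) : ℕ :=
  ∏ q ∈ (disc A B).natAbs.primeFactors.filter (fun q => 5 ≤ q), if (q : ℤ) ∣ A then q ^ 2 else q

/-- `E : y² = x³ + Ax + B` has no congruence, modulo any multiple `n` of a prime `p ≥ 13`, with an elliptic
curve `E' : y² = x³ + A'x + B'` which is not isomorphic to it and has the invariant of a curve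
`y² = x³ + ax + b`, `a`, `b` integral, of height at most `Z` or at most the power `3 / 2` of its
conductor. -/
def NoPartner (Z : ℝ) (A B : ℤ) : Prop :=
  ∀ (A' B' : ℚ) (a b : ℤ), 4 * A' ^ 3 + 27 * B' ^ 2 ≠ 0 → disc a b ≠ 0 →
    invariant A' B' = invariant a b →
    ((height a b : ℝ) ≤ Z ∨ (height a b : ℝ) ≤ (conductor a b : ℝ) ^ (3 / 2 : ℝ)) →
    ∀ n p : ℕ, p.Prime → 13 ≤ p → p ∣ n → Congruent n A B A' B' → Isomorphic A B A' B'

/-- **Theorem.**  Let `κ < 5 / 3`.  There are `δ > 0` and `C` such that for all `H ≥ 1` all but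
`C H ^ (5/6 - δ)` of the equations `y² = x³ + Ax + B` of height at most `H` define elliptic curves without
congruences, modulo multiples of primes `p ≥ 13`, with curves (not isomorphic to them) of height at most
`H ^ κ`, or of height at most the power `3 / 2` of their conductor, or with twists of such curves.  The
number of equations of height at most `H` is at least `H ^ (5/6) / 9`. -/
theorem result (κ : ℝ) (hκ : κ < 5 / 3) : ∃ δ : ℝ, 0 < δ ∧ ∃ C : ℝ, ∀ H : ℝ, 1 ≤ H →
    ({p : ℤ × ℤ | (height p.1 p.2 : ℝ) ≤ H ∧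
      ¬ (disc p.1 p.2 ≠ 0 ∧ NoPartner (H ^ κ) p.1 p.2)}.ncard : ℝ) ≤ C * H ^ (5 / 6 - δ) ∧
    H ^ (5 / 6 : ℝ) / 9 ≤ ({p : ℤ × ℤ | (height p.1 p.2 : ℝ) ≤ H}.ncard : ℝ) := by
  have hsz : ∀ a b : ℤ, Run7.h577.V.Size a b = (height a b : ℝ) := by
    intro a b
    unfold Run7.h577.V.Size height
    push_cast
    rfl
  have hds : ∀ a b : ℤ, Run7.h577.W.ds a b = disc a b := fun a b => rfl
  have hnc : ∀ a b : ℤ, Run7.h577.W.Nc a b = conductor a b := by
    intro a b
    rw [Run7.h577.W.Nc_eq]
    unfold Run7.h577.V.num Run7.h577.W.PB conductor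
    refine Finset.prod_congr rfl fun q _ => ?_
    by_cases hq : (q : ℤ) ∣ a
    · simp only [hq, if_true]
    · simp only [hq, if_false, pow_one]
  have hfr : Module.finrank ℚ ℚ = 1 := Module.finrank_self ℚ
  obtain ⟨δ, C, hδ, -, h⟩ := Run7.h577.W.final_height κ hκ 1
  refine ⟨δ, hδ, C, fun H hH => ⟨h H hH _ ?_, ?_⟩⟩
  · rintro p ⟨hp1, hp2⟩
    refine ⟨by rw [hsz]; exact hp1, ?_⟩
    by_cases h0 : disc p.1 p.2 = 0
    · exact Or.inl h0
    right
    have hno : ¬ NoPartner (H ^ κ) p.1 p.2 := fun h1 => hp2 ⟨h0, h1⟩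
    unfold NoPartner at hno
    push Not at hno
    obtain ⟨A', B', a, b, g1, g2, g3, g4, n, q, g5, g6, g7, g8, g9⟩ := hno
    obtain ⟨f, f1, f2, f3⟩ := g8
    refine ⟨ℚ, inferInstance, inferInstance, n, q, A', B', a, b, by rw [hfr], by rw [hfr]; norm_num,
      g5, g6, by rw [hfr]; omega, g7, g2, g1, ?_, ?_, ⟨f, ⟨f1, f2, f3⟩⟩, g9⟩
    · have e1 : Pool.Agent.Y673.Loc.jv A' B' = invariant A' B' := by
        unfold Pool.Agent.Y673.Loc.jv invariant
        ring
      rw [e1, g3]
      unfold invariant Run7.h577.W.jq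
      push_cast
      ring
    · rw [hsz, hnc]
      exact g4
  · have := Run7.h577.W.total_low H hH
    simp only [hsz] at this
    exact this

end Pool.Agent.Results.MP_a60a76_nt.LargerPartners
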