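import Pool.Agent.Run7.h197.TF.Const

/-!
# MP_a60a76_nt: no congruences between two one-parameter families at almost all `S`-integral
# parameters, for all primes `p ≥ 13` at once

Let `K` be a number field (for example `ℚ`), `S` a finite set of prime numbers and `j = F/G`,
`j' = F'/G'` rational functions over `K` in lowest terms. For example `j` and `j'` are the invariants
of the Legendre families `y² = x(x - 1)(x - t)` and `y² = x(x - 1)(x - t - c)`, `c ≠ 0`, or `j'` is
the invariant of a fixed curve.

**Theorem.** (1) Suppose that two different points `β`, `γ` over the algebraic closure are each a pole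
of exactly one of `j`, `j'`. Then for all but FINITELY many `S`-integers `t` of `K`: for EVERY
extension `L` of `K`, EVERY prime `p ≥ 13` larger than `[L : ℚ]` and the degrees of `G` and `G'`, and
ALL elliptic curves `E`, `E'` over `L` with the invariants `j(t)` and `j'(t)` the fields `L(E[p])` and
`L(E'[p])` are different; in particular `E` and `E'` are not `p`-congruent.

(2) Say that `j` and `j'` differ at `β` if `β` is a pole of exactly one of them (weight `1`), or not a
pole and the order of exactly one of them at `β` is divisible by `3` (weight `2/3`), or not a pole and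
the order of exactly one of `j - 1728`, `j' - 1728` at `β` is even (weight `1/2`). If they differ at
two different points, not both with weight `1/2`, or at three points, then for all but finitely many
`S`-integers `t` of `K`: for every extension `L` of `K` of degree prime to `6` and at most `D` over `ℚ`,
every prime `p ≥ 13` larger than `[L : ℚ]` and the degrees, no curves over `L` with the invariants
`j(t)` and `j'(t)` are `p`-congruent. (For `L = K` these are all the curves over `K`.)

(3) The hypothesis of (2) holds if `j` is not constant and `j'` is a constant different from `0`,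
`1728`, by the theorem of Mason and Stothers. So for every family over `K` which is not isotrivial,
and every curve `E₀` with `j(E₀) ≠ 0, 1728`, for all but finitely many `S`-integers `t` no curve with
the invariant `j(t)` is `p`-congruent to a twist of `E₀` for any `p ≥ 13` larger than the degree.

All primes `p` are treated at once, and for `L = ℚ` the bound `13` includes all primes of the
conjecture. The starting hand-ins `IntegralParameters` (case (1) for `K = ℚ`, `β`, `γ` rational, up to
`C (log X) ^ k` exceptional integers `|t| ≤ X`) and `SublinearPrimes` (the same for all large integers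
`t`, but only for `p ≥ (log |t|) ^ (1 - δ)`) are contained in (1).

Proof. By the local theorems of helper673 and helper56 (`Pool.Agent.Y673.FM.loc`,
`Pool.Agent.K4H56.JD.away_loc`, `above_loc`, which also cover the places above `p`) the orders of
`t - β` outside of a finite set of places are divisible by `p`, `3` or `2`. For two points with `p`
this gives finitely many `t`, for all `p ≥ 3` together: for large `p` by the theorem of Schinzel and
Tijdeman over number fields for `S`-integers with units (`Run7.h197.ST.stS`), which is proved here from
archimedean and `p`-adic lower bounds for linear forms in logarithms sharp in one height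
(`Run7.h197.BK`, `Run7.h197.PB`); for small `p` by the unit equation. If one point has `3` or `2`,
then `t - γ = b z ^ 3` or `b z ^ 2` and `t - β` splits into factors linear in `z`. The cases
without `p` are curves with finitely many integral points.
-/

set_option autoImplicit false

open WeierstrassCurve Polynomial

namespace Pool.Agent.Results.MP_a60a76_nt.TwoFamiliesSInteger

section
variable {K : Type} [Field K]

/-- The curve `y² = x³ + Ax + B` over the field `K`. -/
def curve (A B : K) : WeierstrassCurve K := ⟨0, 0, 0, A, B⟩

/-- Its `j`-invariant. -/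
noncomputable def invariant (A B : K) : K := 1728 * (4 * A ^ 3) / (4 * A ^ 3 + 27 * B ^ 2)

open scoped Classical in
/-- The group of its points over the algebraic closure of `K`. -/
abbrev Points (A B : K) : Type := ((curve A B).baseChange (AlgebraicClosure K)).toAffine.Point

open scoped Classical in
/-- The action of an automorphism `σ` of the algebraic closure on the points. -/
noncomputable def galois (A B : K) (σ : AlgebraicClosure K ≃ₐ[K] AlgebraicClosure K) :
    Points A B →+ Points A B :=
  WeierstrassCurve.Affine.Point.map (σ : AlgebraicClosure K →ₐ[K] AlgebraicClosure K)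

open scoped Classical in
/-- The curves `y² = x³ + Ax + B` and `y² = x³ + A'x + B'` are `p`-congruent over `K`: some map between
the groups of points restricts to a bijective additive map between the groups of points killed by `p`
which commutes with the Galois group. -/
def Congruent (p : ℕ) (A B A' B' : K) : Prop :=
  ∃ f : Points A B → Points A' B', (∀ P Q, p • P = 0 → p • Q = 0 → f (P + Q) = f P + f Q) ∧
    Set.BijOn f {P | p • P = 0} {Q | p • Q = 0} ∧
    ∀ (σ : AlgebraicClosure K ≃ₐ[K] AlgebraicClosure K) (P : Points A B), p • P = 0 →
      f (galois A B σ P) = galois A' B' σ (f P)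

open scoped Classical in
/-- The curves have the same `p`-division field over `K`: an automorphism of the algebraic closure
fixes the points killed by `p` of the first curve if and only if it fixes those of the second. -/
def SameDivisionField (p : ℕ) (A B A' B' : K) : Prop :=
  ∀ σ : AlgebraicClosure K ≃ₐ[K] AlgebraicClosure K,
    (∀ P : Points A B, p • P = 0 → galois A B σ P = P) ↔
      (∀ Q : Points A' B', p • Q = 0 → galois A' B' σ Q = Q)

/-- `t` is an integer outside of the primes dividing `N`. -/
def SInteger (N : ℕ) (t : K) : Prop := ∃ k : ℕ, _root_.IsIntegral ℤ ((N : K) ^ k * t)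

/-- `β` is a pole of exactly one of two rational functions with the denominators `G`, `G'`
(in lowest terms). -/
def PoleOfOne (G G' : K[X]) (β : K) : Prop :=
  (G.eval β = 0 ∧ G'.eval β ≠ 0) ∨ (G.eval β ≠ 0 ∧ G'.eval β = 0)

/-- The rational functions `F/G` and `F'/G'` are not zero, `β` is not a pole of them, and the order of
exactly one of them at `β` is divisible by `q`. -/
def OrderOfOne (q : ℕ) (F G F' G' : K[X]) (β : K) : Prop :=
  F ≠ 0 ∧ F' ≠ 0 ∧ G.eval β ≠ 0 ∧ G'.eval β ≠ 0 ∧
    ¬ (q ∣ F.rootMultiplicity β ↔ q ∣ F'.rootMultiplicity β)

/-- There are two points at each of which `F/G`, `F'/G'` differ by a pole or by the orders modulo `3`,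
or at one of them the orders of `F/G - 1728`, `F'/G' - 1728` differ modulo `2`; or there are three
points of the last kind. -/
def Differ (F G F' G' : K[X]) : Prop :=
  (∃ β γ : K, β ≠ γ ∧ (PoleOfOne G G' β ∨ OrderOfOne 3 F G F' G' β) ∧
    (PoleOfOne G G' γ ∨ OrderOfOne 3 F G F' G' γ ∨
      OrderOfOne 2 (F - C 1728 * G) G (F' - C 1728 * G') G' γ)) ∨
  ∃ β γ δ : K, β ≠ γ ∧ β ≠ δ ∧ γ ≠ δ ∧
    OrderOfOne 2 (F - C 1728 * G) G (F' - C 1728 * G') G' β ∧
    OrderOfOne 2 (F - C 1728 * G) G (F' - C 1728 * G') G' γ ∧
    OrderOfOne 2 (F - C 1728 * G) G (F' - C 1728 * G') G' δ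

/-- `t` is not a pole, and for some prime `p ≥ 13` larger than the degrees of `G` and `G'` and some
number field `L ⊇ K` of degree less than `p` over `ℚ` there are elliptic curves over `L` with the
invariants `F(t)/G(t)` and `F'(t)/G'(t)` and the same `p`-division field. -/
def Exceptional (F G F' G' : K[X]) (t : K) : Prop :=
  G.eval t ≠ 0 ∧ G'.eval t ≠ 0 ∧ ∃ p : ℕ, p.Prime ∧ 13 ≤ p ∧ G.natDegree < p ∧ G'.natDegree < p ∧
    ∃ (L : Type) (_ : Field L) (_ : NumberField L) (_ : Algebra K L) (A B A' B' : L),
      Module.finrank ℚ L < p ∧ 4 * A ^ 3 + 27 * B ^ 2 ≠ 0 ∧ 4 * A' ^ 3 + 27 * B' ^ 2 ≠ 0 ∧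
      invariant A B = algebraMap K L (F.eval t / G.eval t) ∧
      invariant A' B' = algebraMap K L (F'.eval t / G'.eval t) ∧ SameDivisionField p A B A' B'

/-- `t` is not a pole, and for some prime `p ≥ 13` larger than the degrees of `G` and `G'` and some
number field `L ⊇ K` of degree prime to `6` over `K` and less than `p` and at most `D` over `ℚ` there
are elliptic curves over `L` with the invariants `F(t)/G(t)` and `F'(t)/G'(t)` which are
`p`-congruent. -/
def ExceptionalSix (D : ℕ) (F G F' G' : K[X]) (t : K) : Prop :=
  G.eval t ≠ 0 ∧ G'.eval t ≠ 0 ∧ ∃ p : ℕ, p.Prime ∧ 13 ≤ p ∧ G.natDegree < p ∧ G'.natDegree < p ∧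
    ∃ (L : Type) (_ : Field L) (_ : NumberField L) (_ : Algebra K L) (A B A' B' : L),
      Module.finrank ℚ L < p ∧ Module.finrank ℚ L ≤ D ∧ ¬ 2 ∣ Module.finrank K L ∧
      ¬ 3 ∣ Module.finrank K L ∧ 4 * A ^ 3 + 27 * B ^ 2 ≠ 0 ∧ 4 * A' ^ 3 + 27 * B' ^ 2 ≠ 0 ∧
      invariant A B = algebraMap K L (F.eval t / G.eval t) ∧
      invariant A' B' = algebraMap K L (F'.eval t / G'.eval t) ∧ Congruent p A B A' B'

end

/-- **Two families at `S`-integral parameters.** For rational functions `F/G`, `F'/G'` over a number
field `K` in lowest terms and `N ≥ 1`, only finitely many `SInteger N` in `K` are exceptional if two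
points over some extension `M` are each a pole of exactly one of the functions; only finitely many
are exceptional for extensions `L` of degree prime to `6` and at most `D` over `ℚ` if the functions
differ enough over some `M`; this holds if `F/G` is not constant and `F'/G'` is a constant
different from `0`, `1728`. Congruent curves have the same division field. -/
theorem result :
    (∀ (K M : Type) [Field K] [NumberField K] [Field M] [NumberField M] [Algebra K M]
      (F G F' G' : K[X]), IsCoprime F G → IsCoprime F' G' → G ≠ 0 → G' ≠ 0 → ∀ N : ℕ, N ≠ 0 →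
      (∀ β γ : M, β ≠ γ → PoleOfOne (G.map (algebraMap K M)) (G'.map (algebraMap K M)) β →
        PoleOfOne (G.map (algebraMap K M)) (G'.map (algebraMap K M)) γ →
        {t : K | SInteger N t ∧ Exceptional F G F' G' t}.Finite) ∧
      (Differ (F.map (algebraMap K M)) (G.map (algebraMap K M)) (F'.map (algebraMap K M))
        (G'.map (algebraMap K M)) → ∀ D : ℕ,
        {t : K | SInteger N t ∧ ExceptionalSix D F G F' G' t}.Finite)) ∧
    (∀ (K : Type) [Field K] [NumberField K] (F G : K[X]) (c : K), IsCoprime F G →
      (F.natDegree ≠ 0 ∨ G.natDegree ≠ 0) → c ≠ 0 → c ≠ 1728 →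
      ∃ (M : Type) (_ : Field M) (_ : NumberField M) (_ : Algebra K M),
        Differ (F.map (algebraMap K M)) (G.map (algebraMap K M)) ((C c).map (algebraMap K M))
          ((1 : K[X]).map (algebraMap K M))) ∧
    ∀ (K : Type) [Field K] [CharZero K] (p : ℕ) (A B A' B' : K), Congruent p A B A' B' →
      SameDivisionField p A B A' B' := by
  have hinv : ∀ {K : Type} [Field K] (A B : K), Pool.Agent.Y673.Loc.jv A B = invariant A B := by
    intro K _ A B
    unfold Pool.Agent.Y673.Loc.jv invariant
    ring
  refine ⟨?_, ?_, ?_⟩
  · intro K M _ _ _ _ _ F G F' G' hcop hcop' hG hG' N hN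
    constructor
    · intro β γ hβγ hβ hγ
      refine (Run7.h197.TF.fam_pp M F G F' G' hcop hcop' hG hG' hβγ hβ hγ N hN).subset ?_
      rintro t ⟨ht, g1, g2, p, g3, g4, g5, g6, L, i1, i2, i3, A, B, A', B', g7, g8, g9, g10, g11,
        g12⟩
      exact ⟨ht, g1, g2, p, g3, g4, g5, g6, L, i1, i2, i3, A, B, A', B', g7, g8, g9,
        by rw [hinv, g10], by rw [hinv, g11], g12⟩
    · intro hD D
      refine (Run7.h197.TF.fam_hyp M F G F' G' hcop hcop' hG hG' hD N hN D).subset ?_
      rintro t ⟨ht, g1, g2, p, g3, g4, g5, g6, L, i1, i2, i3, A, B, A', B', g7, k1, k2, k3, g8, g9,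
        g10, g11, f, h1, h2, h3⟩
      exact ⟨ht, g1, g2, p, g3, g4, g5, g6, L, i1, i2, i3, A, B, A', B', g7, k1, k2, k3, g8, g9,
        by rw [hinv, g10], by rw [hinv, g11], f, h1, h2, h3⟩
  · intro K _ _ F G c hcop hnc hc hc'
    exact Run7.h197.TF.hyp_const' F G hcop hnc hc hc'
  · intro K _ _ p A B A' B' ⟨f, h1, h2, h3⟩
    exact Pool.Agent.Y673.FM.sameF_of f h2 h3

end Pool.Agent.Results.MP_a60a76_nt.TwoFamiliesSInteger
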